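import Pool.Agent.N516.FI.Crit

set_option autoImplicit false

/-!
# Fisher's relation `γ = ν (2 - η)` for the self-avoiding walk

The definitions are in `Pool.Agent.N516.FI.Defs`, `Pool.Agent.N516.FI.Ball` and
`Pool.Agent.N516.FI.Crit`: `C d n` is the number of self-avoiding walks with `n` steps from the
origin of `ℤ^d`, `Cz d n z` the number of those which end at `z`, `msd d n` the mean square
displacement, `G d μ z` the two-point function `∑_n C_n(z) / μ^n`, `nrm` the Euclidean norm,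
`ball d R` the set of the lattice points `z` with `|z| ≤ R`, `total d μ R` the sum of `G d μ z` over
`ball d R` and `part d μ R a b` the part of this sum which comes from the walks with `n` steps,
`a ≤ n < b`.

In every dimension `d ≥ 1`, if the exponents `γ`, `ν`, `η` exist, then `γ ≤ ν (2 - η)`, and equality
holds exactly if for all `δ, c > 0` and all large `R` the walks with about `R^(1/ν)` steps (between
`R^((1 - δ) / ν)` and `R^((1 + δ) / ν)`) carry at least the fraction `R^(-c)` of the sum of the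
two-point function over the ball of radius `R`.  If the inequality is strict, then for some
`δ, c > 0` and all large `R` all walks with fewer than `R^((1 + δ) / ν)` steps together carry at most
the fraction `R^(-c)`.
-/

namespace Pool.Agent.Results.MP_5e6e69_pr.FisherCharacterization

open Finset Filter Topology Pool.Agent.N516.FI

theorem result (d : ℕ) (hd : 1 ≤ d) (μ γ ν η : ℝ)
    (hμ : Tendsto (fun n : ℕ => (C d n : ℝ) ^ (1 / (n : ℝ))) atTop (𝓝 μ))
    (hγ : Tendsto (fun n : ℕ => Real.log (C d n / μ ^ n) / Real.log n) atTop (𝓝 (γ - 1)))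
    (hν : Tendsto (fun n : ℕ => Real.log (msd d n) / Real.log n) atTop (𝓝 (2 * ν)))
    (hs : ∀ z : Fin d → ℤ, Summable (fun n : ℕ => (Cz d n z : ℝ) / μ ^ n))
    (hη : Tendsto (fun z : Fin d → ℤ => Real.log (G d μ z) / Real.log (nrm z)) cofinite
      (𝓝 (-((d : ℝ) - 2 + η)))) :
    γ ≤ ν * (2 - η) ∧
    (γ = ν * (2 - η) ↔ ∀ δ c : ℝ, 0 < δ → 0 < c → ∀ᶠ R : ℕ in atTop,
      (R : ℝ) ^ (-c) * total d μ R ≤
        part d μ R (⌊(R : ℝ) ^ ((1 - δ) / ν)⌋₊) (⌊(R : ℝ) ^ ((1 + δ) / ν)⌋₊)) ∧
    (γ < ν * (2 - η) → ∃ δ c : ℝ, 0 < δ ∧ 0 < c ∧ ∀ᶠ R : ℕ in atTop,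
      part d μ R 0 (⌊(R : ℝ) ^ ((1 + δ) / ν)⌋₊) ≤ (R : ℝ) ^ (-c) * total d μ R) :=
  ⟨fisher hd hμ hγ hν hs hη, crit hd hμ hγ hν hs hη, fun hlt => short_of_lt hd hμ hγ hν hs hη hlt⟩

end Pool.Agent.Results.MP_5e6e69_pr.FisherCharacterization
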